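import Pool.Agent.Q17.DC.Stm4
import Pool.Agent.H254R3.IN.PI
import Pool.Agent.Helper884.PK.Quot

/-!
Job DZV of project DC (helper17): characters of defect zero vanish at `p`-singular elements.
-/

set_option autoImplicit false

open scoped BigOperators Classical
open Pool.Agent.H254R3.IN Pool.Agent.Y63.KR Pool.Agent.Q17.TC

noncomputable section

namespace Pool.Agent.Q176.DC.DZV

open Pool.Agent.Q17.DC

/-- if the character is constant on a subgroup then the subgroup acts trivially -/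
lemma triv_of_char {A : Type} [Group A] [Fintype A] {V : Type} [AddCommGroup V] [Module ℂ V]
    [FiniteDimensional ℂ V] (ρ : Representation ℂ A V) (Q : Subgroup A)
    (h : ∀ x ∈ Q, ρ.character x = ρ.character 1) : ∀ x ∈ Q, ρ x = 1 := by
  let σ : Representation ℂ Q V := ρ.comp Q.subtype
  have hc : (Nat.card Q : ℂ) ≠ 0 := by exact_mod_cast Nat.card_pos.ne'
  haveI : Invertible (Nat.card Q : ℂ) := invertibleOfNonzero hc
  have h1 := σ.card_inv_mul_sum_char_eq_finrank
  have h2 : ∑ g : Q, σ.character g = (Nat.card Q : ℂ) * Module.finrank ℂ V := by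
    rw [Finset.sum_congr rfl (g := fun _ => (Module.finrank ℂ V : ℂ)) (fun g _ => by
      have h3 : σ.character g = ρ.character (g : A) := rfl
      rw [h3, h g g.2, ρ.char_one])]
    rw [Finset.sum_const, Finset.card_univ, nsmul_eq_mul, Nat.card_eq_fintype_card]
  rw [h2, ← mul_assoc, inv_mul_cancel₀ hc, one_mul] at h1
  have h4 : Module.finrank ℂ V = Module.finrank ℂ (Representation.invariants σ) := by
    exact_mod_cast h1
  have h5 : Representation.invariants σ = ⊤ := Submodule.eq_top_of_finrank_eq h4.symm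
  intro x hx
  ext v
  have h6 : v ∈ Representation.invariants σ := by rw [h5]; exact Submodule.mem_top
  exact h6 ⟨x, hx⟩

/-- the character of the quotient -/
lemma quot_char {A : Type} [Group A] [Fintype A] (Q : Subgroup A) [Q.Normal] {φ : A → ℂ}
    (hφ : IsIrr φ) (h : ∀ x ∈ Q, φ x = φ 1) :
    ∃ φ' : A ⧸ Q → ℂ, IsIrr φ' ∧ ∀ x, φ' (QuotientGroup.mk x) = φ x := by
  obtain ⟨V, _, _, _, ρ, hr, rfl⟩ := hφ
  have h1 := triv_of_char ρ Q h
  let σ : Representation ℂ (A ⧸ Q) V := QuotientGroup.lift Q ρ h1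
  have h2 : ∀ g : A, ρ g = σ ((QuotientGroup.mk' Q) g) := fun g => rfl
  refine ⟨σ.character, ⟨V, _, _, inferInstance, σ, ?_, rfl⟩, fun x => rfl⟩
  exact (Pool.Agent.Helper884.PK.irr_pull (QuotientGroup.mk' Q) (QuotientGroup.mk'_surjective Q)
    σ ρ h2).1 hr

/-- the coefficients of the block idempotents vanish at the `p`-singular elements -/
lemma coeff_vanish (h1 : S_SECT) {G : Type} [Group G] [Fintype G] {p : ℕ} [Fact p.Prime]
    {O : ValuationSubring ℂ} (hpO : (p : ℂ) ∈ O.nonunits) {B : Set (G → ℂ)} (hB : IsBlock O B)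
    {a b : G} {k : ℕ} (ha : orderOf a = p ^ k) (ha1 : a ≠ 1) (hcom : Commute a b)
    (hb : ¬ p ∣ orderOf b) : blockCoeff B (a * b)⁻¹ = 0 := by
  have h3 := h1 G p O hpO B hB dl dl_cl (by
    intro g
    unfold dl
    split_ifs
    · exact isIntegral_one
    · exact isIntegral_zero) a ⟨k, ha⟩ (by
    intro u _ hu
    unfold dl
    rw [if_neg]
    intro h
    apply ha1
    have h4 : a = u⁻¹ := eq_inv_of_mul_eq_one_left h
    have h5 : orderOf a = orderOf u := by rw [h4, orderOf_inv]
    rw [← h5, ha] at hu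
    have h6 : k = 0 := by
      by_contra h0
      exact hu (dvd_pow_self p h0)
    rw [h6, pow_zero, orderOf_eq_one_iff] at ha
    exact ha) b hcom hb
  rw [← h3]
  symm
  rw [Finset.sum_eq_single (a * b)⁻¹]
  · unfold dl
    rw [mul_inv_cancel, if_pos rfl, mul_one]
  · intro t _ ht
    unfold dl
    rw [if_neg, mul_zero]
    intro h8
    exact ht (eq_inv_of_mul_eq_one_right h8)
  · intro h
    exact absurd (Finset.mem_univ _) h

/-- a character of defect zero is alone in its block -/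
lemma single_block {G : Type} [Group G] [Fintype G] {O : ValuationSubring ℂ} {χ : G → ℂ}
    (hχ : IsIrr χ) (h : χ 1 / Nat.card G ∈ O) : IsBlock O {χ} := by
  refine ⟨χ, hχ, ?_⟩
  ext ψ
  rw [Set.mem_singleton_iff]
  change ψ = χ ↔ IsIrr ψ ∧ ∀ x : G, omega ψ x - omega χ x ∈ O.nonunits
  constructor
  · rintro rfl
    exact ⟨hχ, fun x => by rw [sub_self]; exact O.nonunits.zero_mem⟩
  · rintro ⟨hψ, hx⟩
    by_contra hne
    have hB : ∀ θ ∈ ({χ} : Set (G → ℂ)), IsIrr θ := by
      intro θ hθ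
      rw [Set.mem_singleton_iff.mp hθ]
      exact hχ
    have hbc : ∀ g, blockCoeff ({χ} : Set (G → ℂ)) g ∈ O := by
      intro g
      have h1 : blockCoeff ({χ} : Set (G → ℂ)) g = χ 1 / Nat.card G * χ g⁻¹ := by
        unfold blockCoeff
        rw [finsum_mem_singleton]
        ring
      rw [h1]
      exact O.mul_mem _ _ h (hχ.val_mem O _)
    have h1 := Om_blockCoeff hB hχ
    have h2 := Om_blockCoeff hB hψ
    rw [if_pos (Set.mem_singleton χ)] at h1
    rw [if_neg (fun h => hne (Set.mem_singleton_iff.mp h))] at h2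
    have h3 := (red_Om hχ (blockCoeff_cl hB) hbc).2
    have h4 := (red_Om hψ (blockCoeff_cl hB) hbc).2
    have h5 : red O (Om (blockCoeff ({χ} : Set (G → ℂ))) χ) =
        red O (Om (blockCoeff ({χ} : Set (G → ℂ))) ψ) := by
      rw [h3, h4]
      refine Finset.sum_congr rfl fun K _ => ?_
      rw [(red_eq_iff (hψ.omega_mem O _) (hχ.omega_mem O _)).mpr (hx _)]
    rw [h1, h2, red_one, red_zero] at h5
    exact one_ne_zero h5

/-- the degree of a character of defect zero -/
lemma deg_mem {p : ℕ} [hp : Fact p.Prime] {O : ValuationSubring ℂ} (hpO : (p : ℂ) ∈ O.nonunits)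
    {n m : ℕ} (hm : m ≠ 0) (h : m.factorization p = n.factorization p) : (n : ℂ) / m ∈ O := by
  obtain ⟨c, hc⟩ := Nat.ordProj_dvd n p
  have h1 : m = p ^ m.factorization p * (m / p ^ m.factorization p) :=
    (Nat.ordProj_mul_ordCompl_eq_self m p).symm
  have h2 : ¬ p ∣ m / p ^ m.factorization p := Nat.not_dvd_ordCompl hp.out hm
  have h3 : (n : ℂ) / m = c * ((m / p ^ m.factorization p : ℕ) : ℂ)⁻¹ := by
    have hp0 : ((p : ℂ)) ^ n.factorization p ≠ 0 := pow_ne_zero _ (by exact_mod_cast hp.out.ne_zero)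
    have hq : ((m / p ^ m.factorization p : ℕ) : ℂ) ≠ 0 := by
      have : m / p ^ m.factorization p ≠ 0 := fun h0 => h2 (by rw [h0]; exact dvd_zero p)
      exact_mod_cast this
    have e1 : (n : ℂ) = (p : ℂ) ^ n.factorization p * c := by exact_mod_cast hc
    have e2 : (m : ℂ) = (p : ℂ) ^ n.factorization p * ((m / p ^ m.factorization p : ℕ) : ℂ) := by
      rw [← h]
      exact_mod_cast h1
    rw [e2, e1]
    field_simp
  rw [h3]
  exact O.mul_mem _ _ (natCast_mem' c) (nat_inv_mem hpO h2)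

theorem t_DZV (h1 : S_SECT) : S_DZV := by
  intro A _ _ p hp O hpO Q hQ hQp φ hφ hker hdef z s hcom hz hs hne
  obtain ⟨n, hn, hfac⟩ := hdef
  obtain ⟨k, hk⟩ := hz
  haveI := hQ
  haveI : Fintype (A ⧸ Q) := Fintype.ofFinite _
  by_contra hzQ
  apply hne
  obtain ⟨φ', hφ', hval⟩ := quot_char Q hφ hker
  have hcard : Nat.card A = Nat.card (A ⧸ Q) * Nat.card Q :=
    Subgroup.card_eq_card_quotient_mul_card_subgroup Q
  have hf2 : (Nat.card (A ⧸ Q)).factorization p = n.factorization p := by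
    rw [hcard, Nat.factorization_mul Nat.card_pos.ne' Nat.card_pos.ne', Finsupp.add_apply] at hfac
    omega
  have hφ'1 : φ' 1 = n := by
    rw [hn, ← hval 1]
    rfl
  have hO : φ' 1 / Nat.card (A ⧸ Q) ∈ O := by
    rw [hφ'1]
    exact deg_mem hpO Nat.card_pos.ne' hf2
  have hblk := single_block hφ' hO
  -- the images of z and s
  have hz' : ∃ j, orderOf (QuotientGroup.mk z : A ⧸ Q) = p ^ j := by
    have h2 : orderOf (QuotientGroup.mk z : A ⧸ Q) ∣ p ^ k := by
      rw [← hk]
      exact orderOf_map_dvd (QuotientGroup.mk' Q) z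
    obtain ⟨j, -, hj⟩ := (Nat.dvd_prime_pow hp.out).mp h2
    exact ⟨j, hj⟩
  obtain ⟨j, hj⟩ := hz'
  have hz1 : (QuotientGroup.mk z : A ⧸ Q) ≠ 1 := fun h => hzQ ((QuotientGroup.eq_one_iff z).mp h)
  have hs' : ¬ p ∣ orderOf (QuotientGroup.mk s : A ⧸ Q) := fun h =>
    hs (h.trans (orderOf_map_dvd (QuotientGroup.mk' Q) s))
  have hcom' : Commute (QuotientGroup.mk z : A ⧸ Q) (QuotientGroup.mk s) := by
    show (QuotientGroup.mk' Q) z * (QuotientGroup.mk' Q) s =
      (QuotientGroup.mk' Q) s * (QuotientGroup.mk' Q) z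
    rw [← map_mul, ← map_mul, hcom.eq]
  have h3 := coeff_vanish h1 hpO hblk hj hz1 hcom' hs'
  unfold blockCoeff at h3
  rw [finsum_mem_singleton, inv_inv] at h3
  have h4 : φ' ((QuotientGroup.mk z : A ⧸ Q) * QuotientGroup.mk s) = 0 := by
    have hc : (Nat.card (A ⧸ Q) : ℂ)⁻¹ ≠ 0 := inv_ne_zero (by exact_mod_cast Nat.card_pos.ne')
    rcases mul_eq_zero.mp h3 with h5 | h5
    · exact absurd h5 hc
    · rcases mul_eq_zero.mp h5 with h6 | h6
      · exact absurd h6 hφ'.one_ne
      · exact h6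
  rw [← h4, ← hval (z * s)]
  rfl

end Pool.Agent.Q176.DC.DZV
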