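import Mathlib
import Pool.Agent.Q17.DC.Stm

/-!
# Project DC, part BRD: the Brauer homomorphism of a `p`-subgroup
-/

set_option autoImplicit false
set_option linter.unusedSectionVars false

open scoped BigOperators Classical
open Pool.Agent.H254R3.IN Pool.Agent.Helper884

noncomputable section

namespace Pool.Agent.Q176.DC

variable {G : Type} [Group G] [Fintype G]

/-- restriction to a subgroup -/
def rs (C : Subgroup G) (u : G → ℂ) (c : C) : ℂ := u c

lemma rs_cl (C : Subgroup G) {u : G → ℂ} (hu : IsCl u) : IsCl (rs C u) :=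
  fun g y => hu (g : G) (y : G)

lemma rs_mem (C : Subgroup G) {O : ValuationSubring ℂ} {u : G → ℂ} (hu : ∀ g, u g ∈ O) (c : C) :
    rs C u c ∈ O := hu c

lemma dl_coe (C : Subgroup G) (c : C) : (dl (c : G) : ℂ) = dl c := by
  unfold dl
  by_cases h : c = 1
  · rw [if_pos h, if_pos (by rw [h]; rfl)]
  · have h2 : (c : G) ≠ 1 := fun h' => h (Subtype.ext h')
    rw [if_neg h, if_neg h2]

lemma red_conv {O : ValuationSubring ℂ} {A : Type} [Group A] [Fintype A] {f h f' h' : A → ℂ}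
    (hf : ∀ a, f a ∈ O) (hh : ∀ a, h a ∈ O) (hf' : ∀ a, f' a ∈ O) (hh' : ∀ a, h' a ∈ O)
    (e1 : ∀ a, red O (f a) = red O (f' a)) (e2 : ∀ a, red O (h a) = red O (h' a)) (a : A) :
    red O (conv f h a) = red O (conv f' h' a) := by
  unfold conv
  rw [red_sum _ _ fun x _ => O.mul_mem _ _ (hf x) (hh _),
    red_sum _ _ fun x _ => O.mul_mem _ _ (hf' x) (hh' _)]
  refine Finset.sum_congr rfl fun x _ => ?_
  rw [red_mul (hf x) (hh _), red_mul (hf' x) (hh' _), e1, e2]

lemma red_Om_congr {O : ValuationSubring ℂ} {A : Type} [Group A] [Fintype A] {f h φ : A → ℂ}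
    (hφ : IsIrr φ) (hf : IsCl f) (hh : IsCl h) (hf' : ∀ a, f a ∈ O) (hh' : ∀ a, h a ∈ O)
    (e : ∀ a, red O (f a) = red O (h a)) : red O (Om f φ) = red O (Om h φ) := by
  rw [(red_Om hφ hf hf').2, (red_Om hφ hh hh').2]
  exact Finset.sum_congr rfl fun K _ => by rw [e]

lemma rs_conv {p : ℕ} [Fact p.Prime] {O : ValuationSubring ℂ} (hp : (p : ℂ) ∈ O.nonunits)
    (D : Subgroup G) (hD : IsPGroup p D) {u v : G → ℂ} (hu : IsCl u) (hv : IsCl v)
    (hu' : ∀ g, u g ∈ O) (hv' : ∀ g, v g ∈ O) (c : Subgroup.centralizer (D : Set G)) :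
    red O (rs _ (conv u v) c) = red O (conv (rs (Subgroup.centralizer (D : Set G)) u)
      (rs (Subgroup.centralizer (D : Set G)) v) c) := by
  have hch := charP_RF hp
  have hF : ∀ a : RF O, p • a = 0 := fun a => by
    rw [nsmul_eq_mul, CharP.cast_eq_zero, zero_mul]
  let _ : MulAction D G :=
    { smul := fun d x => (d : G) * x * (d : G)⁻¹
      one_smul := fun x => by
        show ((1 : D) : G) * x * ((1 : D) : G)⁻¹ = x
        simp
      mul_smul := fun d e x => by
        show ((d * e : D) : G) * x * ((d * e : D) : G)⁻¹ =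
          (d : G) * ((e : G) * x * (e : G)⁻¹) * (d : G)⁻¹
        rw [Subgroup.coe_mul]
        group }
  have hsm : ∀ (d : D) (x : G), d • x = (d : G) * x * (d : G)⁻¹ := fun _ _ => rfl
  have h1 := sum_fixed hD hF (fun x : G => red O (u x * v (x⁻¹ * c))) (by
    intro d x
    have h2 : u (d • x) = u x := hu x d
    have h3 : v ((d • x)⁻¹ * c) = v (x⁻¹ * c) := by
      rw [← hv (x⁻¹ * c) d, hsm]
      congr 1
      have h4 : (d : G) * c = c * d := (Subgroup.mem_centralizer_iff.1 c.2) d d.2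
      calc ((d : G) * x * (d : G)⁻¹)⁻¹ * c = d * x⁻¹ * ((d : G)⁻¹ * c) := by group
        _ = d * x⁻¹ * (c * (d : G)⁻¹) := by
            congr 1
            rw [inv_mul_eq_iff_eq_mul, ← mul_assoc, h4, mul_inv_cancel_right]
        _ = d * (x⁻¹ * c) * (d : G)⁻¹ := by group
    show red O (u (d • x) * v ((d • x)⁻¹ * c)) = red O (u x * v (x⁻¹ * c))
    rw [h2, h3])
  have h2 : red O (rs _ (conv u v) c) = ∑ x : G, red O (u x * v (x⁻¹ * c)) := by
    unfold rs conv
    rw [red_sum _ _ fun x _ => O.mul_mem _ _ (hu' x) (hv' _)]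
  rw [h2, h1]
  unfold conv
  rw [red_sum _ _ fun x _ => O.mul_mem _ _ (rs_mem _ hu' x) (rs_mem _ hv' _)]
  have h5 : ∀ s : Finset G, (∀ x, x ∈ s ↔ x ∈ Subgroup.centralizer (D : Set G)) →
      ∑ x ∈ s, red O (u x * v (x⁻¹ * c)) =
        ∑ x : Subgroup.centralizer (D : Set G), red O (u x * v ((x : G)⁻¹ * c)) :=
    fun s hs => Finset.sum_subtype s hs _
  refine (h5 _ (fun x => ?_)).trans ?_
  · simp only [Finset.mem_filter, Finset.mem_univ, true_and, hsm, Subgroup.mem_centralizer_iff,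
      SetLike.mem_coe]
    constructor
    · intro h d hd
      have := h ⟨d, hd⟩
      rwa [mul_inv_eq_iff_eq_mul] at this
    · intro h d
      rw [mul_inv_eq_iff_eq_mul]
      exact h d d.2
  · rfl

lemma conv_idem {O : ValuationSubring ℂ} {B : Set (G → ℂ)} (hB : IsBlock O B) :
    conv (blockCoeff B) (blockCoeff B) = blockCoeff B := by
  have hcl := blockCoeff_cl hB.irr
  refine eq_of_Om (hcl.conv hcl) hcl fun χ hχ => ?_
  rw [Om_conv hχ hcl hcl, Om_blockCoeff hB.irr hχ]
  split_ifs <;> simp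

lemma cl_shift {A : Type} [Group A] [Fintype A] {f : A → ℂ} (hf : IsCl f) (c : ℂ) :
    IsCl (fun g => f g - c * dl g) := by
  intro g y
  show f (y * g * y⁻¹) - c * dl (y * g * y⁻¹) = f g - c * dl g
  rw [hf g y, dl_cl g y]

lemma Om_shift {A : Type} [Group A] [Fintype A] {f φ : A → ℂ} (hφ : IsIrr φ) (c : ℂ) :
    Om (fun g => f g - c * dl g) φ = Om f φ - c := by
  rw [Om_sub, Om_smul, Om_dl hφ, mul_one]

lemma conv_shift {A : Type} [Group A] [Fintype A] (f h : A → ℂ) (c : ℂ) (a : A) :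
    conv f (fun g => h g - c * dl g) a = conv f h a - c * f a := by
  unfold conv
  simp only [mul_sub, Finset.sum_sub_distrib]
  congr 1
  rw [Finset.sum_eq_single a]
  · rw [inv_mul_cancel]
    unfold dl
    rw [if_pos rfl]
    ring
  · intro b _ hb
    unfold dl
    rw [if_neg (fun h => hb (by rw [inv_mul_eq_one] at h; exact h)), mul_zero, mul_zero]
  · intro h
    exact absurd (Finset.mem_univ a) h

/-- A class function which is idempotent modulo the maximal ideal and not zero has a character with a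
nonzero residue. -/
lemma exists_char {O : ValuationSubring ℂ} {A : Type} [Group A] [Fintype A] {e : A → ℂ}
    (he : IsCl e) (heO : ∀ a, e a ∈ O) (hid : ∀ a, red O (conv e e a) = red O (e a)) (x : A)
    (hx : red O (e x) ≠ 0) : ∃ φ : A → ℂ, IsIrr φ ∧ red O (Om e φ) ≠ 0 := by
  by_contra hcon
  push Not at hcon
  have key : ∀ T : Finset (A → ℂ), (∀ φ ∈ T, IsIrr φ) → ∃ P : A → ℂ, IsCl P ∧ (∀ a, P a ∈ O) ∧
      (∀ φ', IsIrr φ' → Om P φ' = Om e φ' * ∏ φ ∈ T, (Om e φ' - Om e φ)) ∧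
      ∀ a, red O (P a) = red O (e a) := by
    intro T
    induction T using Finset.induction_on with
    | empty => exact fun _ => ⟨e, he, heO, fun φ' _ => by simp, fun a => rfl⟩
    | insert f s hf ih =>
      intro hT
      obtain ⟨P, h1, h2, h3, h4⟩ := ih fun φ hφ => hT φ (Finset.mem_insert_of_mem hφ)
      have hfi := hT f (Finset.mem_insert_self f s)
      have hOmO := (red_Om hfi he heO).1
      refine ⟨conv P (fun g => e g - Om e f * dl g), h1.conv (cl_shift he _), ?_, ?_, ?_⟩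
      · exact conv_mem h2 fun g => sub_mem' (heO g) (O.mul_mem _ _ hOmO (dl_mem O g))
      · intro φ' hφ'
        rw [Om_conv hφ' h1 (cl_shift he _), h3 φ' hφ', Om_shift hφ', Finset.prod_insert hf]
        ring
      · intro a
        rw [conv_shift, red_sub (conv_mem h2 heO a) (O.mul_mem _ _ hOmO (h2 a)),
          red_mul hOmO (h2 a), hcon f hfi, zero_mul, sub_zero,
          red_conv h2 heO heO heO h4 (fun _ => rfl) a, hid]
  obtain ⟨P, h1, h2, h3, h4⟩ := key (IC.Irr A) fun φ hφ => mem_Irr.1 hφ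
  have h5 : P = fun _ => 0 := by
    refine eq_of_Om h1 (fun _ _ => rfl) fun φ' hφ' => ?_
    have hz : ∏ φ ∈ IC.Irr A, (Om e φ' - Om e φ) = 0 :=
      Finset.prod_eq_zero (mem_Irr.2 hφ') (sub_self _)
    rw [h3 φ' hφ', hz, mul_zero]
    unfold Om
    simp
  apply hx
  rw [← h4 x, h5]
  exact red_zero

theorem t_BRD : Pool.Agent.Q17.DC.S_BRD := by
  intro G _ _ p _ O hp B hB D hD x hx hxB
  obtain ⟨C, hC⟩ : ∃ C : Subgroup G, C = Subgroup.centralizer (D : Set G) := ⟨_, rfl⟩
  have hcl := blockCoeff_cl hB.irr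
  have hbO := blockCoeff_mem hB
  have hrs : ∀ {u v : G → ℂ}, IsCl u → IsCl v → (∀ g, u g ∈ O) → (∀ g, v g ∈ O) →
      ∀ c : C, red O (rs C (conv u v) c) = red O (conv (rs C u) (rs C v) c) := by
    subst hC
    exact fun hu hv hu' hv' c => rs_conv hp D hD hu hv hu' hv' c
  rw [← hC] at hx ⊢
  obtain ⟨φ, hφ, hφe⟩ := exists_char (O := O) (e := rs C (blockCoeff B)) (rs_cl C hcl)
    (rs_mem C hbO) (fun a => by rw [← hrs hcl hcl hbO hbO, conv_idem hB]) ⟨x, hx⟩ (by
      intro h
      exact hxB ((red_eq_zero_iff (hbO x)).1 h))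
  refine ⟨φ, hφ, fun χ hχ w => ?_⟩
  have hsum : ∑ᶠ y : {y : C // IsConj w (y : G)}, φ y / φ 1 = Om (rs C (ind w)) φ := by
    rw [finsum_eq_sum_of_fintype]
    unfold Om rs ind
    simp only [ite_mul, one_mul, zero_mul]
    rw [← Finset.sum_filter, Finset.sum_div]
    rw [Finset.sum_subtype (Finset.univ.filter (fun y : C => IsConj w (y : G)))
      (p := fun y : C => IsConj w (y : G)) (by intro y; simp)]
  rw [hsum]
  have hk := ind_cl w
  have hkO := ind_mem O w
  obtain ⟨K, hK⟩ : ∃ K, K = Om (rs C (ind w)) φ := ⟨_, rfl⟩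
  have hKO : K ∈ O := by rw [hK]; exact (red_Om hφ (rs_cl C hk) (rs_mem C hkO)).1
  have key : ∀ T : Finset (G → ℂ), (∀ ψ ∈ T, ψ ∈ B) → ∃ P : G → ℂ, IsCl P ∧ (∀ g, P g ∈ O) ∧
      (∀ χ', IsIrr χ' → Om P χ' = ∏ ψ ∈ T, (omega χ' w - omega ψ w)) ∧
      red O (Om (rs C P) φ) = ∏ ψ ∈ T, (red O K - red O (omega ψ w)) := by
    intro T
    induction T using Finset.induction_on with
    | empty =>
      refine fun _ => ⟨dl, dl_cl, dl_mem O, fun χ' hχ' => by rw [Om_dl hχ', Finset.prod_empty], ?_⟩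
      have h1 : rs C dl = dl := by
        funext c
        exact dl_coe C c
      rw [h1, Om_dl hφ, red_one, Finset.prod_empty]
    | insert f s hf ih =>
      intro hT
      obtain ⟨P, h1, h2, h3, h4⟩ := ih fun φ hφ => hT φ (Finset.mem_insert_of_mem hφ)
      have hfi := hB.irr f (hT f (Finset.mem_insert_self f s))
      have hfO := hfi.omega_mem O w
      have hQO : ∀ g, ind w g - omega f w * dl g ∈ O := fun g =>
        sub_mem' (hkO g) (O.mul_mem _ _ hfO (dl_mem O g))
      have hQ := cl_shift hk (omega f w)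
      refine ⟨conv P (fun g => ind w g - omega f w * dl g), h1.conv hQ, conv_mem h2 hQO, ?_, ?_⟩
      · intro χ' hχ'
        rw [Om_conv hχ' h1 hQ, h3 χ' hχ', Om_shift hχ', Om_ind hχ', Finset.prod_insert hf]
        ring
      · rw [red_Om_congr hφ (rs_cl C (h1.conv hQ)) ((rs_cl C h1).conv (rs_cl C hQ))
          (rs_mem C (conv_mem h2 hQO)) (conv_mem (rs_mem C h2) (rs_mem C hQO))
          (hrs h1 hQ h2 hQO), Om_conv hφ (rs_cl C h1) (rs_cl C hQ)]
        have h5 : Om (rs C (fun g => ind w g - omega f w * dl g)) φ = K - omega f w := by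
          have h6 : rs C (fun g => ind w g - omega f w * dl g) =
              fun c => rs C (ind w) c - omega f w * dl c := by
            funext c
            show ind w (c : G) - omega f w * dl (c : G) = ind w (c : G) - omega f w * dl c
            rw [dl_coe]
          rw [h6, Om_shift hφ, hK]
        rw [h5, red_mul (red_Om hφ (rs_cl C h1) (rs_mem C h2)).1 (sub_mem' hKO hfO), h4,
          red_sub hKO hfO, Finset.prod_insert hf]
        ring
  obtain ⟨P, h1, h2, h3, h4⟩ := key ((IC.Irr G).filter (· ∈ B)) fun ψ hψ =>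
    (Finset.mem_filter.1 hψ).2
  have h5 : conv P (blockCoeff B) = fun _ => 0 := by
    refine eq_of_Om (h1.conv hcl) (fun _ _ => rfl) fun χ' hχ' => ?_
    rw [Om_conv hχ' h1 hcl, h3 χ' hχ', Om_blockCoeff hB.irr hχ']
    have h6 : Om (fun _ : G => (0 : ℂ)) χ' = 0 := by unfold Om; simp
    rw [h6]
    by_cases hB' : χ' ∈ B
    · have hz : ∏ ψ ∈ (IC.Irr G).filter (· ∈ B), (omega χ' w - omega ψ w) = 0 :=
        Finset.prod_eq_zero (Finset.mem_filter.2 ⟨mem_Irr.2 hχ', hB'⟩) (sub_self _)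
      rw [hz, zero_mul]
    · rw [if_neg hB', mul_zero]
  have h6 : red O (Om (rs C P) φ) * red O (Om (rs C (blockCoeff B)) φ) = 0 := by
    rw [← red_mul (red_Om hφ (rs_cl C h1) (rs_mem C h2)).1
      (red_Om hφ (rs_cl C hcl) (rs_mem C hbO)).1, ← Om_conv hφ (rs_cl C h1) (rs_cl C hcl),
      ← red_Om_congr hφ (rs_cl C (h1.conv hcl)) ((rs_cl C h1).conv (rs_cl C hcl))
          (rs_mem C (conv_mem h2 hbO)) (conv_mem (rs_mem C h2) (rs_mem C hbO))
          (hrs h1 hcl h2 hbO), h5]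
    have h7 : Om (rs C (fun _ : G => (0 : ℂ))) φ = 0 := by
      unfold Om rs
      simp
    rw [h7, red_zero]
  rcases mul_eq_zero.1 h6 with h7 | h7
  · rw [h4, Finset.prod_eq_zero_iff] at h7
    obtain ⟨ψ, hψ, h8⟩ := h7
    have hψB := (Finset.mem_filter.1 hψ).2
    rw [← hK]
    have hχO := (hB.irr χ hχ).omega_mem O w
    rw [← red_eq_iff hχO hKO, hB.red_eq hχ hψB, (sub_eq_zero.1 h8)]
  · exact absurd h7 hφe

end Pool.Agent.Q176.DC
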