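import Pool.Agent.Q17.DC.Stm4
import Pool.Agent.Q38.DC.EXI

/-! Job EXZ of project DC: every block of the centraliser of a `p`-element induces a block.
The proof is the one of `Pool.Agent.Q38.DC.EXI`, for a general subgroup between. -/

set_option autoImplicit false
set_option linter.unusedSectionVars false

open scoped BigOperators Classical
open Pool.Agent.H254R3.IN Pool.Agent.Y63.KR Pool.Agent.Q17.TC Pool.Agent.Q17.DC
open Pool.Agent.Q176.DC Pool.Agent.Helper884 Pool.Agent.Q38.DC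

noncomputable section

namespace Pool.Agent.Q176.DC.EXZ

section main

variable {G : Type} [Group G] [Fintype G]

lemma mul_res' {p : ℕ} [Fact p.Prime] {O : ValuationSubring ℂ} (hp : (p : ℂ) ∈ O.nonunits)
    (D : Subgroup G) (hD : IsPGroup p D) (N : Subgroup G)
    (hle : D ≤ N) (hnorm : (D.subgroupOf N).Normal)
    (hcent : ∀ c ∈ Subgroup.centralizer (D : Set G), c ∈ N) {θ : N → ℂ}
    (hθ : IsIrr θ) {u v : G → ℂ} (hu : IsCl u) (hv : IsCl v)
    (hu' : ∀ g, u g ∈ O) (hv' : ∀ g, v g ∈ O) :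
    red O (Om (rs N (conv u v)) θ) = red O (Om (rs N u) θ) * red O (Om (rs N v) θ) := by
  have hDN : IsPGroup p (D.subgroupOf N) := hD.comap_subtype
  have h1 : red O (Om (rs N (conv u v)) θ) = red O (Om (conv (rs N u) (rs N v)) θ) := by
    refine red_Om_cent hp hDN hθ (rs_cl N (hu.conv hv)) ((rs_cl N hu).conv (rs_cl N hv))
      (rs_mem N (conv_mem hu' hv')) (conv_mem (rs_mem N hu') (rs_mem N hv')) fun c hc => ?_
    have hc' : (c : G) ∈ Subgroup.centralizer (D : Set G) := (mem_cent_iff hle c).1 hc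
    rw [red_conv_sum hp (D.subgroupOf N) hDN (rs_cl N hu) (rs_cl N hv) (rs_mem N hu')
      (rs_mem N hv') c hc]
    change red O (conv u v (c : G)) = _
    rw [red_conv_sum hp D hD hu hv hu' hv' (c : G) hc']
    symm
    refine Fintype.sum_bijective
      (fun x : Subgroup.centralizer ((D.subgroupOf N : Subgroup N) : Set N) =>
        (⟨((x : N) : G), (mem_cent_iff hle x.1).1 x.2⟩ : Subgroup.centralizer (D : Set G)))
      ⟨?_, ?_⟩ _ _ fun x => ?_
    · intro x y hxy
      have h2 : ((x : N) : G) = ((y : N) : G) :=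
        congrArg (fun z : Subgroup.centralizer (D : Set G) => (z : G)) hxy
      exact Subtype.ext (Subtype.ext h2)
    · rintro ⟨x, hx⟩
      exact ⟨⟨⟨x, hcent x hx⟩, (mem_cent_iff hle _).2 hx⟩, rfl⟩
    · rfl
  rw [h1, Om_conv hθ (rs_cl N hu) (rs_cl N hv),
    red_mul (red_Om hθ (rs_cl N hu) (rs_mem N hu')).1 (red_Om hθ (rs_cl N hv) (rs_mem N hv')).1]

/-- Brauer: the block of a character of a subgroup `C` with `D C_G(D) ≤ C ≤ N_G(D)` induces a
block -/
theorem exi_gen {p : ℕ} [Fact p.Prime] {O : ValuationSubring ℂ} (hp : (p : ℂ) ∈ O.nonunits)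
    (D : Subgroup G) (hD : IsPGroup p D) (C : Subgroup G)
    (hle : D ≤ C) (hnorm : (D.subgroupOf C).Normal)
    (hcent : ∀ c ∈ Subgroup.centralizer (D : Set G), c ∈ C) {θ : C → ℂ}
    (hθ : IsIrr θ) : ∃ B : Set (G → ℂ), IsBlock O B ∧ ∀ χ ∈ B, ∀ w : G, omega χ w -
      ∑ᶠ y : {y : C // IsConj w (y : G)}, θ y / θ 1 ∈ O.nonunits := by
  have hmul : ∀ {u v : G → ℂ}, IsCl u → IsCl v → (∀ g, u g ∈ O) → (∀ g, v g ∈ O) →
      red O (Om (rs C (conv u v)) θ) = red O (Om (rs C u) θ) * red O (Om (rs C v) θ) :=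
    fun hu hv hu' hv' => mul_res' hp D hD C hle hnorm hcent hθ hu hv hu' hv'
  have hdl : rs C dl = dl := by
    funext c
    exact dl_coe C c
  obtain ⟨B, hB, hBne⟩ : ∃ B : Set (G → ℂ), IsBlock O B ∧
      red O (Om (rs C (blockCoeff B)) θ) ≠ 0 := by
    by_contra hcon
    push Not at hcon
    have h1 : Om (rs C dl) θ = ∑ β ∈ Pool.Agent.Q111.DC.Bls (A := G) O,
        Om (rs C (blockCoeff β)) θ := by
      rw [← Pool.Agent.Q111.DC.sum_blocks (A := G) O]
      exact Pool.Agent.Q111.DC.Om_sum _ (fun β => rs C (blockCoeff β)) θ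
    rw [hdl, Om_dl hθ] at h1
    have h2 : red O 1 = 0 := by
      rw [h1, red_sum _ _ fun β hβ => ?_]
      · refine Finset.sum_eq_zero fun β hβ => ?_
        obtain ⟨χ, hχ, rfl⟩ := Finset.mem_image.mp hβ
        exact hcon _ (Pool.Agent.Q111.DC.Bl_block (mem_Irr.mp hχ))
      · obtain ⟨χ, hχ, rfl⟩ := Finset.mem_image.mp hβ
        have hb := Pool.Agent.Q111.DC.Bl_block (O := O) (mem_Irr.mp hχ)
        exact (red_Om hθ (rs_cl C (blockCoeff_cl hb.irr)) (rs_mem C (blockCoeff_mem hb))).1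
    rw [red_one] at h2
    exact one_ne_zero h2
  have hcl := blockCoeff_cl hB.irr
  have hbO := blockCoeff_mem hB
  refine ⟨B, hB, fun χ hχ w => ?_⟩
  have hsum : ∑ᶠ y : {y : C // IsConj w (y : G)}, θ y / θ 1 = Om (rs C (ind w)) θ := by
    rw [finsum_eq_sum_of_fintype]
    unfold Om rs ind
    simp only [ite_mul, one_mul, zero_mul]
    rw [← Finset.sum_filter, Finset.sum_div]
    rw [Finset.sum_subtype (Finset.univ.filter (fun y : C => IsConj w (y : G)))
      (p := fun y : C => IsConj w (y : G)) (by intro y; simp)]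
  rw [hsum]
  have hk := ind_cl w
  have hkO := ind_mem O w
  obtain ⟨K, hK⟩ : ∃ K, K = Om (rs C (ind w)) θ := ⟨_, rfl⟩
  have hKO : K ∈ O := by rw [hK]; exact (red_Om hθ (rs_cl C hk) (rs_mem C hkO)).1
  have key : ∀ T : Finset (G → ℂ), (∀ ψ ∈ T, ψ ∈ B) → ∃ P : G → ℂ, IsCl P ∧ (∀ g, P g ∈ O) ∧
      (∀ χ', IsIrr χ' → Om P χ' = ∏ ψ ∈ T, (omega χ' w - omega ψ w)) ∧
      red O (Om (rs C P) θ) = ∏ ψ ∈ T, (red O K - red O (omega ψ w)) := by
    intro T
    induction T using Finset.induction_on with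
    | empty =>
      refine fun _ => ⟨dl, dl_cl, dl_mem O, fun χ' hχ' => by rw [Om_dl hχ', Finset.prod_empty], ?_⟩
      rw [hdl, Om_dl hθ, red_one, Finset.prod_empty]
    | insert f s hf ih =>
      intro hT
      obtain ⟨P, h1, h2, h3, h4⟩ := ih fun φ hφ => hT φ (Finset.mem_insert_of_mem hφ)
      have hfi := hB.irr f (hT f (Finset.mem_insert_self f s))
      have hfO := hfi.omega_mem O w
      have hQO : ∀ g, ind w g - omega f w * dl g ∈ O := fun g =>
        sub_mem' (hkO g) (O.mul_mem _ _ hfO (dl_mem O g))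
      have hQ := cl_shift hk (omega f w)
      refine ⟨conv P (fun g => ind w g - omega f w * dl g), h1.conv hQ, conv_mem h2 hQO, ?_, ?_⟩
      · intro χ' hχ'
        rw [Om_conv hχ' h1 hQ, h3 χ' hχ', Om_shift hχ', Om_ind hχ', Finset.prod_insert hf]
        ring
      · rw [hmul h1 hQ h2 hQO]
        have h5 : Om (rs C (fun g => ind w g - omega f w * dl g)) θ = K - omega f w := by
          have h6 : rs C (fun g => ind w g - omega f w * dl g) =
              fun c => rs C (ind w) c - omega f w * dl c := by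
            funext c
            show ind w (c : G) - omega f w * dl (c : G) = ind w (c : G) - omega f w * dl c
            rw [dl_coe]
          rw [h6, Om_shift hθ, hK]
        rw [h5, h4, red_sub hKO hfO, Finset.prod_insert hf]
        ring
  obtain ⟨P, h1, h2, h3, h4⟩ := key ((IC.Irr G).filter (· ∈ B)) fun ψ hψ =>
    (Finset.mem_filter.1 hψ).2
  have h5 : conv P (blockCoeff B) = fun _ => 0 := by
    refine eq_of_Om (h1.conv hcl) (fun _ _ => rfl) fun χ' hχ' => ?_
    rw [Om_conv hχ' h1 hcl, h3 χ' hχ', Om_blockCoeff hB.irr hχ']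
    have h6 : Om (fun _ : G => (0 : ℂ)) χ' = 0 := by unfold Om; simp
    rw [h6]
    by_cases hB' : χ' ∈ B
    · have hz : ∏ ψ ∈ (IC.Irr G).filter (· ∈ B), (omega χ' w - omega ψ w) = 0 :=
        Finset.prod_eq_zero (Finset.mem_filter.2 ⟨mem_Irr.2 hχ', hB'⟩) (sub_self _)
      rw [hz, zero_mul]
    · rw [if_neg hB', mul_zero]
  have h6 : red O (Om (rs C P) θ) * red O (Om (rs C (blockCoeff B)) θ) = 0 := by
    rw [← hmul h1 hcl h2 hbO, h5]
    have h7 : Om (rs C (fun _ : G => (0 : ℂ))) θ = 0 := by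
      unfold Om rs
      simp
    rw [h7, red_zero]
  rcases mul_eq_zero.1 h6 with h7 | h7
  · rw [h4, Finset.prod_eq_zero_iff] at h7
    obtain ⟨ψ, hψ, h8⟩ := h7
    have hψB := (Finset.mem_filter.1 hψ).2
    rw [← hK]
    have hχO := (hB.irr χ hχ).omega_mem O w
    rw [← red_eq_iff hχO hKO, hB.red_eq hχ hψB, (sub_eq_zero.1 h8)]
  · exact absurd h7 hBne

end main

/-- **EXZ** -/
theorem t_EXZ : S_EXZ := by
  intro A G _ _ _ _ j p _ O hj hp z hz hcen φ hφ
  obtain ⟨k, hk⟩ := hz
  set D : Subgroup G := Subgroup.zpowers (j z) with hDdef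
  have hDp : IsPGroup p D := by
    refine IsPGroup.of_card (n := k) ?_
    rw [hDdef, Nat.card_zpowers, orderOf_injective j hj, hk]
  have hcentD : ∀ c : G, c ∈ Subgroup.centralizer (D : Set G) ↔ Commute (j z) c := by
    intro c
    rw [Subgroup.mem_centralizer_iff]
    constructor
    · intro h
      exact h (j z) (Subgroup.mem_zpowers _)
    · intro h d hd
      rw [hDdef] at hd
      obtain ⟨n, rfl⟩ := Subgroup.mem_zpowers_iff.mp hd
      exact (h.zpow_left n)
  let e : A ≃* j.range := MonoidHom.ofInjective hj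
  have hle : D ≤ j.range := by
    rw [hDdef, Subgroup.zpowers_le]
    exact ⟨z, rfl⟩
  have hnorm : (D.subgroupOf j.range).Normal := by
    constructor
    rintro n hn g
    rw [Subgroup.mem_subgroupOf] at hn ⊢
    have h1 : Commute (j z) (g : G) := (hcen g).2 g.2
    have h2 : (g : G) ∈ Subgroup.centralizer (D : Set G) := (hcentD g).2 h1
    rw [Subgroup.mem_centralizer_iff] at h2
    have h3 := h2 (n : G) hn
    have h4 : ((g * n * g⁻¹ : j.range) : G) = (n : G) := by
      push_cast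
      rw [← h3, mul_inv_cancel_right]
    rw [h4]
    exact hn
  have hcent : ∀ c ∈ Subgroup.centralizer (D : Set G), c ∈ j.range := fun c hc =>
    (hcen c).1 ((hcentD c).1 hc)
  have hθ : IsIrr (fun n : j.range => φ (e.symm n)) := Pool.Agent.Y62.irr_comp hφ e.symm
  obtain ⟨B, hB, hBw⟩ := exi_gen (O := O) hp D hDp j.range hle hnorm hcent hθ
  refine ⟨B, hB, fun χ hχ x => ?_⟩
  have h1 := hBw χ hχ x
  have h2 : ∑ᶠ y : {y : j.range // IsConj x (y : G)}, φ (e.symm y) / φ (e.symm 1) =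
      ∑ᶠ v : {v : A // IsConj x (j v)}, φ v / φ 1 := by
    rw [map_one]
    symm
    refine finsum_eq_of_bijective
      (fun v : {v : A // IsConj x (j v)} =>
        (⟨e v.1, v.2⟩ : {y : j.range // IsConj x (y : G)})) ⟨?_, ?_⟩ fun v => ?_
    · intro a b hab
      exact Subtype.ext (e.injective (congrArg Subtype.val hab))
    · rintro ⟨y, hy⟩
      refine ⟨⟨e.symm y, ?_⟩, Subtype.ext (e.apply_symm_apply y)⟩
      have h3 : j (e.symm y) = (y : G) := by
        have := congrArg Subtype.val (e.apply_symm_apply y)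
        exact this
      rw [h3]
      exact hy
    · simp
  rwa [h2] at h1

end Pool.Agent.Q176.DC.EXZ
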