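import Pool.Agent.Q17.DC.Stm4
import Pool.Agent.Q66.DC.UNQ
import Pool.Agent.Q38.DC.EXI

/-!
Job IBL of project DC (helper17): a block of `H` with a defect group meeting the coset induces a
block of `G`.
-/

set_option autoImplicit false

open scoped BigOperators Classical
open Pool.Agent.H254R3.IN Pool.Agent.Y63.KR Pool.Agent.Q17.TC Pool.Agent.Q239.TC
  Pool.Agent.Q222.TC

noncomputable section

namespace Pool.Agent.Q176.DC.IBL

open Pool.Agent.Q17.DC Pool.Agent.Q66.DC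

theorem t_IBL (hTI : S_TI) (_ : S_MMX) (hFMT : S_FMT) (_ : S_EXI) (_ : S_TRS) : S_IBL := by
  intro G _ _ p _ O hpO N _ y H P hTD b hb E hdef hz
  obtain ⟨z, hzE, hzK, hzN⟩ := hz
  obtain ⟨D, hDd⟩ : ∃ D : Subgroup G, D = E.map H.subtype := ⟨_, rfl⟩
  have hDH : D ≤ H := by
    rw [hDd]
    rintro x ⟨d, -, rfl⟩
    exact d.2
  have hDE : D.subgroupOf H = E := by
    rw [hDd]
    exact Subgroup.comap_map_eq_self_of_injective H.subtype_injective E
  have hzD : (z : G) ∈ D := by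
    rw [hDd]
    exact ⟨z, hzE, rfl⟩
  have hN : NN D ≤ H := by
    intro g hg
    have h1 := (Subgroup.mem_normalizer_iff.mp ((NN D).inv_mem hg) z).mp hzD
    rw [inv_inv] at h1
    exact (hTI G p N y H P hTD).1 g z (hDH hzD) hzK hzN (hDH h1)
  rw [← hDE] at hdef
  have hDp : IsPGroup p D := (defect_pgroup hdef).of_equiv (Subgroup.subgroupOfEquivOfLe hDH)
  obtain ⟨β, hβ⟩ := (hFMT H p O hpO (D.subgroupOf H) (defect_pgroup hdef) b hb).1 hdef
  obtain ⟨θ, hθ⟩ := hβ.1.nonempty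
  have hθi := hβ.1.irr θ hθ
  have hθ₀ : IsIrr (fun x => θ ((eN hDH hN).symm x)) := irr_comp (eN hDH hN).symm hθi
  obtain ⟨B, hB, hBe⟩ := Pool.Agent.Q38.DC.exi_main hpO D hDp (NN D) rfl hθ₀
  refine ⟨B, hB, ?_⟩
  intro χ hχ ψ hψ x
  rw [ind_red (hB.irr χ hχ) (hb.irr ψ hψ) x, stage hDH hN (hb.irr ψ hψ) hθ₀ ?_ x]
  · exact (ind_red (hB.irr χ hχ) hθ₀ x).1 (hBe χ hχ x)
  · intro w
    exact (ind_red (hb.irr ψ hψ) hθi w).1 (hβ.2.2 ψ hψ θ hθ w)

end Pool.Agent.Q176.DC.IBL
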