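import Mathlib
import Pool.Agent.Q17.DC.Stm

/-!
# Project DC, part SECT: block idempotents respect the `p`-sections
-/

set_option autoImplicit false
set_option linter.unusedSectionVars false

open scoped BigOperators Classical
open Pool.Agent.H254R3.IN Pool.Agent.Helper884

noncomputable section

namespace Pool.Agent.Q176.DC

variable {A : Type} [Group A]

/-! ### periods -/

/-- the shift -/
def shf (W : ℕ → A) : ℕ → A := fun j => W (j + 1)

lemma shf_iter (W : ℕ → A) (m : ℕ) : shf^[m] W = fun j => W (j + m) := by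
  induction m with
  | zero => rfl
  | succ m ih =>
    rw [Function.iterate_succ_apply', ih]
    funext j
    show W (j + 1 + m) = W (j + (m + 1))
    congr 1
    ring

lemma per_gcd {W : ℕ → A} {m n : ℕ} (hm : ∀ j, W (j + m) = W j) (hn : ∀ j, W (j + n) = W j) :
    ∀ j, W (j + m.gcd n) = W j := by
  have h1 : Function.IsPeriodicPt shf m W := by
    show shf^[m] W = W
    rw [shf_iter]
    exact funext hm
  have h2 : Function.IsPeriodicPt shf n W := by
    show shf^[n] W = W
    rw [shf_iter]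
    exact funext hn
  have h3 : shf^[m.gcd n] W = W := h1.gcd h2
  rw [shf_iter] at h3
  exact congrFun h3

lemma per_dvd {W : ℕ → A} {m n : ℕ} (hm : ∀ j, W (j + m) = W j) (h : m ∣ n) :
    ∀ j, W (j + n) = W j := by
  obtain ⟨k, rfl⟩ := h
  induction k with
  | zero => intro j; rw [mul_zero, add_zero]
  | succ k ih =>
    intro j
    rw [mul_add, mul_one, ← add_assoc, hm, ih]

/-- product of the first letters -/
def Qp (W : ℕ → A) (l : ℕ) : A := ((List.range l).map W).prod

lemma Qp_zero (W : ℕ → A) : Qp W 0 = 1 := rfl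

lemma Qp_succ (W : ℕ → A) (l : ℕ) : Qp W (l + 1) = Qp W l * W l := by
  unfold Qp
  rw [List.range_succ, List.map_append, List.prod_append]
  simp

lemma Qp_add (W : ℕ → A) (l m : ℕ) : Qp W (l + m) = Qp W l * Qp (fun j => W (l + j)) m := by
  induction m with
  | zero => rw [add_zero, Qp_zero, mul_one]
  | succ m ih =>
    rw [← add_assoc, Qp_succ, ih, Qp_succ, mul_assoc]

lemma Qp_conj (W : ℕ → A) (g : A) (m : ℕ) :
    Qp (fun j => g * W j * g⁻¹) m = g * Qp W m * g⁻¹ := by
  induction m with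
  | zero => rw [Qp_zero, Qp_zero, mul_one, mul_inv_cancel]
  | succ m ih =>
    rw [Qp_succ, ih, Qp_succ]
    group

lemma iter_conj {W : ℕ → A} {M : ℕ} {g : A} (h : ∀ j, W (j + M) = g * W j * g⁻¹) (k j : ℕ) :
    W (j + k * M) = g ^ k * W j * (g ^ k)⁻¹ := by
  induction k with
  | zero => simp
  | succ k ih =>
    rw [add_mul, one_mul, ← add_assoc, h, ih, pow_succ']
    group

lemma Qp_mul {W : ℕ → A} {M : ℕ} {g : A} (h : ∀ j, W (j + M) = g * W j * g⁻¹) (k : ℕ) :
    Qp W (k * M) = (Qp W M * g) ^ k * (g ^ k)⁻¹ := by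
  induction k with
  | zero => simp [Qp_zero]
  | succ k ih =>
    rw [add_mul, one_mul, Qp_add, ih]
    have h1 : (fun j => W (k * M + j)) = fun j => g ^ k * W j * (g ^ k)⁻¹ := by
      funext j
      rw [add_comm, iter_conj h]
    rw [h1, Qp_conj, pow_succ (Qp W M * g), pow_succ g]
    group

lemma Qp_per {W : ℕ → A} {m : ℕ} (h : ∀ j, W (j + m) = W j) (k : ℕ) :
    Qp W (k * m) = Qp W m ^ k := by
  have h1 : ∀ j, W (j + m) = 1 * W j * 1⁻¹ := fun j => by rw [h]; group
  have h2 := Qp_mul h1 k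
  simpa using h2

lemma Qp_comm {W : ℕ → A} {z : A} (h : ∀ j, Commute z (W j)) (l : ℕ) : Commute z (Qp W l) := by
  induction l with
  | zero => exact Commute.one_right z
  | succ l ih => rw [Qp_succ]; exact ih.mul_right (h l)

/-! ### orders -/

lemma preg_of_pow [Finite A] {p q : ℕ} (hp : p.Prime) (hq : ¬ p ∣ q) {u : A}
    (h : ¬ p ∣ orderOf (u ^ q)) : ¬ p ∣ orderOf u := by
  intro hu
  apply h
  have h1 : orderOf u ∣ q * orderOf (u ^ q) := by
    rw [orderOf_dvd_iff_pow_eq_one, pow_mul, pow_orderOf_eq_one]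
  exact (hp.dvd_mul.1 (hu.trans h1)).resolve_left hq

lemma preg_pow [Finite A] {p r : ℕ} (hp : p.Prime) (hr : (Nat.card A).factorization p ≤ r)
    (x : A) (k : ℕ) : ¬ p ∣ orderOf (x ^ (p ^ r * k)) := by
  have hA : Nat.card A ≠ 0 := Nat.card_pos.ne'
  have h1 : x ^ (p ^ r * (Nat.card A / p ^ (Nat.card A).factorization p)) = 1 := by
    have h2 : Nat.card A ∣ p ^ r * (Nat.card A / p ^ (Nat.card A).factorization p) := by
      calc Nat.card A = p ^ (Nat.card A).factorization p *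
            (Nat.card A / p ^ (Nat.card A).factorization p) :=
              (Nat.ordProj_mul_ordCompl_eq_self (Nat.card A) p).symm
        _ ∣ _ := Nat.mul_dvd_mul_right (pow_dvd_pow p hr) _
    rw [← orderOf_dvd_iff_pow_eq_one]
    exact (orderOf_dvd_natCard x).trans h2
  intro h
  have h3 : orderOf (x ^ (p ^ r * k)) ∣ Nat.card A / p ^ (Nat.card A).factorization p := by
    rw [orderOf_dvd_iff_pow_eq_one, ← pow_mul,
      show p ^ r * k * (Nat.card A / p ^ (Nat.card A).factorization p) =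
        p ^ r * (Nat.card A / p ^ (Nat.card A).factorization p) * k by ring, pow_mul, h1, one_pow]
  exact Nat.not_dvd_ordCompl hp hA (h.trans h3)

/-- The letters of a word whose sequence has a period not divisible by a high power of `p`. -/
lemma word_core [Finite A] {p n r : ℕ} (hp : p.Prime) (hr : (Nat.card A).factorization p ≤ r)
    {z s : A} {k : ℕ} (hz : orderOf z = p ^ k) (hzs : Commute z s) (hs : ¬ p ∣ orderOf s)
    {W : ℕ → A} (hW : ∀ j, W (j + p ^ (n + r)) = (z * s) * W j * (z * s)⁻¹) {m : ℕ} (hm0 : 0 < m)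
    (hm : ∀ j, W (j + m) = W j) (hnm : ¬ p ^ n ∣ m) :
    ∃ x, Commute z x ∧ ¬ p ∣ orderOf x ∧ (z * s) * Qp W (p ^ (n + r)) = z * x := by
  obtain ⟨M, hM⟩ : ∃ M, M = p ^ (n + r) := ⟨_, rfl⟩
  rw [← hM] at hW ⊢
  obtain ⟨q0, hq0⟩ : ∃ q0, q0 = orderOf s := ⟨_, rfl⟩
  have hq0p : 0 < q0 := by rw [hq0]; exact orderOf_pos s
  rw [← hq0] at hs
  -- the big period
  have hP : ∀ j, W (j + (q0 * p ^ k) * M) = W j := by
    intro j
    rw [iter_conj hW]
    have h1 : (z * s) ^ (q0 * p ^ k) = 1 := by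
      rw [hzs.mul_pow, mul_comm q0, pow_mul z, ← hz, pow_orderOf_eq_one, one_pow, one_mul,
        mul_comm, pow_mul, hq0, pow_orderOf_eq_one, one_pow]
    rw [h1]
    group
  have hg := per_gcd hm hP
  obtain ⟨m1, hm1⟩ : ∃ m1, m1 = m.gcd (q0 * p ^ k * M) := ⟨_, rfl⟩
  rw [← hm1] at hg
  have hm1p : 0 < m1 := by rw [hm1]; exact Nat.gcd_pos_of_pos_left _ hm0
  have hd1 : m1 ∣ m := by rw [hm1]; exact Nat.gcd_dvd_left _ _
  have hd2 : m1 ∣ q0 * p ^ k * M := by rw [hm1]; exact Nat.gcd_dvd_right _ _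
  obtain ⟨i, m', hm'p, hm1e⟩ := Nat.exists_eq_pow_mul_and_not_dvd hm1p.ne' p hp.ne_one
  have hin : i < n := by
    by_contra hcon
    push Not at hcon
    apply hnm
    refine (pow_dvd_pow p hcon).trans (Dvd.dvd.trans ?_ hd1)
    rw [hm1e]
    exact Dvd.intro _ rfl
  have hm'q : m' ∣ q0 := by
    have h1 : m' ∣ q0 * p ^ k * M := (Dvd.intro_left _ hm1e.symm).trans hd2
    rw [hM, mul_assoc, ← pow_add] at h1
    exact (Nat.Coprime.pow_right _ ((Nat.Prime.coprime_iff_not_dvd hp).2 hm'p).symm).dvd_of_dvd_mul_right h1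
  obtain ⟨t, ht⟩ := hm'q
  -- `q0 * M` is a period
  have hqM : q0 * M = (p ^ r * (p ^ (n - i) * t)) * m1 := by
    rw [hM, hm1e, ht]
    have h1 : p ^ (n + r) = p ^ r * (p ^ (n - i) * p ^ i) := by
      rw [← pow_add, Nat.sub_add_cancel hin.le, ← pow_add, add_comm]
    rw [h1]
    ring
  have hqper : ∀ j, W (j + q0 * M) = W j := per_dvd hg (by rw [hqM]; exact Dvd.intro_left _ rfl)
  have hzq : ∀ j, Commute (z ^ q0) (W j) := by
    intro j
    have h1 := hqper j
    rw [iter_conj hW, hzs.mul_pow] at h1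
    have h2 : s ^ q0 = 1 := by rw [hq0, pow_orderOf_eq_one]
    rw [h2, mul_one] at h1
    exact mul_inv_eq_iff_eq_mul.1 h1
  have hcz : ∀ j, Commute z (W j) := by
    intro j
    have h1 : Nat.Coprime q0 (orderOf z) := by
      rw [hz]
      exact Nat.Coprime.pow_right _ ((Nat.Prime.coprime_iff_not_dvd hp).2 hs).symm
    obtain ⟨k', hk'⟩ := exists_pow_eq_self_of_coprime h1
    rw [← hk']
    exact (hzq j).pow_left k'
  have hcQ := Qp_comm hcz M
  have h1 := Qp_mul hW q0
  have h2 : Qp W (q0 * M) = Qp W m1 ^ (p ^ r * (p ^ (n - i) * t)) := by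
    rw [hqM, Qp_per hg]
  have h3 : (Qp W M * s) ^ q0 = Qp W (q0 * M) := by
    have h4 : Qp W M * (z * s) = z * (Qp W M * s) := by
      rw [← mul_assoc, ← mul_assoc, hcQ.eq]
    have h5 : Commute z (Qp W M * s) := hcQ.mul_right hzs
    have h6 : s ^ q0 = 1 := by rw [hq0, pow_orderOf_eq_one]
    rw [h1, h4, h5.mul_pow, hzs.mul_pow, h6, mul_one]
    have h7 : Commute (z ^ q0) ((Qp W M * s) ^ q0) := (h5.pow_left _).pow_right _
    rw [h7.eq, mul_inv_cancel_right]
  have h4 : ¬ p ∣ orderOf (Qp W M * s) := by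
    apply preg_of_pow hp hs
    rw [h3, h2]
    exact preg_pow hp hr _ _
  refine ⟨s * Qp W M, hzs.mul_right hcQ, ?_, by rw [mul_assoc]⟩
  have h5 : s * Qp W M = s * (Qp W M * s) * s⁻¹ := by group
  rw [h5]
  have h6 : orderOf (s * (Qp W M * s) * s⁻¹) = orderOf (Qp W M * s) := by
    have := orderOf_injective (MulAut.conj s).toMonoidHom (MulAut.conj s).injective (Qp W M * s)
    simpa using this
  rw [h6]
  exact h4

/-! ### the group algebra -/

lemma single_prod (e : A → ℂ) (l : List A) :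
    (l.map fun t => (MonoidAlgebra.single t (e t) : MonoidAlgebra ℂ A)).prod =
      MonoidAlgebra.single l.prod (l.map e).prod := by
  induction l with
  | nil => rfl
  | cons a l ih =>
    rw [List.map_cons, List.prod_cons, ih, MonoidAlgebra.single_mul_single, List.map_cons,
      List.prod_cons, List.prod_cons]

lemma algb_coeff [Finite A] {β : Set (A → ℂ)} (hβ : ∀ χ ∈ β, IsIrr χ) (x : A) :
    IsAlgebraic ℚ (blockCoeff β x) := by
  have := Fintype.ofFinite A
  rw [blockCoeff_eq hβ]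
  have h1 : ∀ c : ℂ, IsIntegral ℤ c → IsAlgebraic ℚ c := fun c hc =>
    (hc.tower_top (A := ℚ)).isAlgebraic
  refine IsAlgebraic.mul ?_ ?_
  · exact (isAlgebraic_natCast _).inv
  · refine h1 _ (IsIntegral.sum _ fun χ hχ => ?_)
    have h2 : IsIrr χ := mem_Irr.1 (Finset.mem_filter.1 hχ).1
    exact (h2.isIntegral 1).mul (h2.isIntegral x⁻¹)

theorem t_SECT (h1 : Pool.Agent.Q17.DC.S_ALG) (h2 : Pool.Agent.Q17.DC.S_POW)
    (h3 : Pool.Agent.Q17.DC.S_WORD) : Pool.Agent.Q17.DC.S_SECT := by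
  intro A _ _ p _ O hp β hβ h hcl hint z hz hvan s hzs hs
  have hpp : p.Prime := Fact.out
  obtain ⟨k, hk⟩ := hz
  have hecl := blockCoeff_cl hβ.irr
  have heO := blockCoeff_mem hβ
  have hhO : ∀ x, h x ∈ O := fun x => mem_of_isIntegral (hint x)
  refine h1 p O hp _ ?_ fun n => ?_
  · rw [isAlgebraic_iff_isIntegral]
    refine IsIntegral.sum _ fun t _ => ?_
    exact (isAlgebraic_iff_isIntegral.1 (algb_coeff hβ.irr t)).mul ((hint _).tower_top (A := ℚ))
  obtain ⟨r, hr⟩ : ∃ r, r = (Nat.card A).factorization p := ⟨_, rfl⟩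
  obtain ⟨M, hM⟩ : ∃ M, M = p ^ (n + r) := ⟨_, rfl⟩
  have hM0 : 0 < M := by rw [hM]; exact pow_pos hpp.pos _
  obtain ⟨c, hc, hcs⟩ := h3 A A O id (blockCoeff β) h (z * s) (MulAut.conj (z * s)).toEquiv M (p ^ n)
    hM0 heO hhO (fun x y => hcl x y) (fun l => rfl) (fun l => hecl l (z * s)) (by
      intro W hW _ hne m hm0 hm
      by_contra hnm
      obtain ⟨x, hx1, hx2, hx3⟩ := word_core (n := n) (r := r) hpp hr.ge hk hzs hs (W := W)
        (by rw [← hM]; exact hW) hm0 hm hnm
      apply hne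
      have h5 : ((List.range M).map fun i => id (W i)).prod = Qp W M := rfl
      rw [h5, hM, hx3]
      exact hvan x hx1 hx2)
  refine ⟨c, hc, ?_⟩
  have h6 : ((p ^ n : ℕ) : ℂ) = (p : ℂ) ^ n := by push_cast; rfl
  rw [← h6, ← hcs]
  -- the element of the group algebra
  obtain ⟨E, hE⟩ : ∃ E : MonoidAlgebra ℂ A, E = ∑ t, MonoidAlgebra.single t (blockCoeff β t) :=
    ⟨_, rfl⟩
  have hidem : E * E = E := by
    have hconv : conv (blockCoeff β) (blockCoeff β) = blockCoeff β := by
      refine eq_of_Om (hecl.conv hecl) hecl fun χ hχ => ?_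
      rw [Om_conv hχ hecl hecl, Om_blockCoeff hβ.irr hχ]
      split_ifs <;> simp
    rw [hE, Finset.sum_mul_sum]
    conv_rhs => rw [← hconv]
    unfold conv
    have h7 : ∀ g, (MonoidAlgebra.single g (∑ x, blockCoeff β x * blockCoeff β (x⁻¹ * g)) :
        MonoidAlgebra ℂ A) = ∑ x, MonoidAlgebra.single g (blockCoeff β x * blockCoeff β (x⁻¹ * g)) := by
      intro g
      exact map_sum (MonoidAlgebra.singleAddHom g) _ _
    simp only [h7]
    rw [Finset.sum_comm (s := Finset.univ) (t := Finset.univ) (f := fun g x =>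
      (MonoidAlgebra.single g (blockCoeff β x * blockCoeff β (x⁻¹ * g)) : MonoidAlgebra ℂ A))]
    refine Finset.sum_congr rfl fun x _ => ?_
    refine Fintype.sum_equiv (Equiv.mulLeft x) _ _ fun y => ?_
    rw [Equiv.coe_mulLeft, MonoidAlgebra.single_mul_single, inv_mul_cancel_left]
  have hpow : E ^ M = E := by
    have : IsIdempotentElem E := hidem
    exact this.pow_eq hM0.ne'
  -- the functional
  obtain ⟨F, hF⟩ : ∃ F : MonoidAlgebra ℂ A →+ ℂ, ∀ t c, F (MonoidAlgebra.single t c) =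
      c * h (z * s * t) := by
    refine ⟨MonoidAlgebra.liftNC (AddMonoidHom.id ℂ) (fun t => h (z * s * t)), fun t c => ?_⟩
    exact MonoidAlgebra.liftNC_single _ _ _ _
  have h8 : F E = ∑ t, blockCoeff β t * h (z * s * t) := by
    rw [hE, map_sum]
    exact Finset.sum_congr rfl fun t _ => hF t _
  rw [← h8, ← hpow, hE, h2, map_sum]
  refine Finset.sum_congr rfl fun w _ => ?_
  have h9 : (List.ofFn fun i => (MonoidAlgebra.single (w i) (blockCoeff β (w i)) :
      MonoidAlgebra ℂ A)) = (List.ofFn w).map fun t => MonoidAlgebra.single t (blockCoeff β t) := by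
    rw [List.map_ofFn]
    rfl
  rw [h9, single_prod, hF, List.map_ofFn, List.prod_ofFn]
  rfl

end Pool.Agent.Q176.DC
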